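import Mathlib

namespace Pool.Agent.Results.MP_41e757_co.SkewHamming

open Finset

open Classical in
/-- The Hamming distance of two strings: the number of coordinates in which they differ. -/
noncomputable def dist {X : Type*} {n : ℕ} (p q : Fin n → X) : ℕ :=
  (univ.filter (fun k => p k ≠ q k)).card

/-- A skew `t`-family of length `m` in `X^n`. -/
def IsSkewFamily {X : Type*} (t : ℕ) {n m : ℕ} (a b : Fin m → Fin n → X) : Prop :=
  (∀ i, t + 1 ≤ dist (a i) (b i)) ∧ ∀ i j, i < j → dist (a i) (b j) ≤ t

/-- The set of all lengths of skew `t`-families over `X` (with `n ≥ t + 1` arbitrary). -/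
def lengths (t : ℕ) (X : Type*) : Set ℕ :=
  {m | ∃ n : ℕ, t + 1 ≤ n ∧ ∃ a b : Fin m → Fin n → X, IsSkewFamily t a b}

/-- `g t X` is the largest length of a skew `t`-family over `X`. -/
noncomputable def g (t : ℕ) (X : Type*) : ℕ := sSup (lengths t X)

/-! ### The algebra `F[x_1,…,x_s]/(x_1²,…,x_s²)` over a field of characteristic two -/

section algebra

variable {F : Type*} [Field F] {s : ℕ}

/-- Multiplication by the linear form `∑ w_i x_i`. -/
def N (w : Fin s → F) (f : Finset (Fin s) → F) (S : Finset (Fin s)) : F :=
  ∑ i ∈ S, w i * f (S.erase i)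

/-- The product in the algebra. -/
def conv (f h : Finset (Fin s) → F) (S : Finset (Fin s)) : F :=
  ∑ T ∈ S.powerset, f T * h (S \ T)

lemma conv_comm (f h : Finset (Fin s) → F) : conv f h = conv h f := by
  funext S
  unfold conv
  refine sum_nbij' (fun T => S \ T) (fun T => S \ T) ?_ ?_ ?_ ?_ ?_
  · intro T _
    rw [mem_powerset]; exact sdiff_subset
  · intro T _
    rw [mem_powerset]; exact sdiff_subset
  · intro T hT
    rw [mem_powerset] at hT
    exact Finset.sdiff_sdiff_eq_self hT
  · intro T hT
    rw [mem_powerset] at hT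
    exact Finset.sdiff_sdiff_eq_self hT
  · intro T hT
    rw [mem_powerset] at hT
    rw [Finset.sdiff_sdiff_eq_self hT]
    ring

lemma N_conv (w : Fin s → F) (f h : Finset (Fin s) → F) :
    conv (N w f) h = N w (conv f h) := by
  funext S
  unfold conv N
  simp_rw [sum_mul, mul_sum]
  rw [sum_sigma', sum_sigma']
  refine sum_nbij' (fun p => ⟨p.2, p.1.erase p.2⟩) (fun p => ⟨insert p.1 p.2, p.1⟩) ?_ ?_ ?_ ?_ ?_
  · rintro ⟨T, i⟩ hp
    simp only [mem_sigma, mem_powerset] at hp ⊢
    exact ⟨hp.1 hp.2, erase_subset_erase _ hp.1⟩
  · rintro ⟨i, T⟩ hp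
    simp only [mem_sigma, mem_powerset] at hp ⊢
    exact ⟨insert_subset hp.1 (hp.2.trans (erase_subset _ _)), mem_insert_self _ _⟩
  · rintro ⟨T, i⟩ hp
    simp only [mem_sigma, mem_powerset] at hp
    simp only [insert_erase hp.2]
  · rintro ⟨i, T⟩ hp
    simp only [mem_sigma, mem_powerset] at hp
    have : i ∉ T := fun h => by
      have := hp.2 h
      rw [mem_erase] at this
      exact this.1 rfl
    simp only [erase_insert this]
  · rintro ⟨T, i⟩ hp
    simp only [mem_sigma, mem_powerset] at hp
    have : (S.erase i) \ (T.erase i) = S \ T := by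
      ext x
      simp only [mem_sdiff, mem_erase]
      constructor
      · rintro ⟨⟨h1, h2⟩, h3⟩
        exact ⟨h2, fun h => h3 ⟨h1, h⟩⟩
      · rintro ⟨h1, h2⟩
        refine ⟨⟨?_, h1⟩, fun h => h2 h.2⟩
        rintro rfl
        exact h2 hp.2
    simp only [this]
    ring

lemma conv_N (w : Fin s → F) (f h : Finset (Fin s) → F) :
    conv f (N w h) = N w (conv f h) := by
  rw [conv_comm, N_conv, conv_comm]

lemma N_N [CharP F 2] (w : Fin s → F) (f : Finset (Fin s) → F) : N w (N w f) = 0 := by
  funext S
  unfold N
  simp_rw [mul_sum]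
  rw [sum_sigma']
  apply sum_involution (fun p _ => (⟨p.2, p.1⟩ : (_ : Fin s) × Fin s))
  · rintro ⟨i, j⟩ hp
    simp only [mem_sigma, mem_erase] at hp
    simp only
    rw [erase_right_comm, CharTwo.add_eq_zero]
    ring
  · rintro ⟨i, j⟩ hp _ h
    simp only [mem_sigma, mem_erase] at hp
    simp only [Sigma.mk.injEq] at h
    exact hp.2.1 h.1
  · rintro ⟨i, j⟩ hp
    simp only [mem_sigma, mem_erase] at hp ⊢
    exact ⟨hp.2.2, fun h => hp.2.1 h.symm, hp.1⟩
  · rintro ⟨i, j⟩ hp
    rfl

lemma N_add (w : Fin s → F) (f h : Finset (Fin s) → F) : N w (f + h) = N w f + N w h := by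
  funext S
  simp only [N, Pi.add_apply, mul_add, sum_add_distrib]

lemma N_smul (w : Fin s → F) (c : F) (f : Finset (Fin s) → F) : N w (c • f) = c • N w f := by
  funext S
  simp only [N, Pi.smul_apply, smul_eq_mul, mul_sum]
  apply sum_congr rfl
  intro i _
  ring

lemma conv_add (f h h' : Finset (Fin s) → F) : conv f (h + h') = conv f h + conv f h' := by
  funext S
  simp only [conv, Pi.add_apply, mul_add, sum_add_distrib]

lemma add_conv (f f' h : Finset (Fin s) → F) : conv (f + f') h = conv f h + conv f' h := by
  funext S
  simp only [conv, Pi.add_apply, add_mul, sum_add_distrib]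

lemma conv_smul (c : F) (f h : Finset (Fin s) → F) : conv f (c • h) = c • conv f h := by
  funext S
  simp only [conv, Pi.smul_apply, smul_eq_mul, mul_sum]
  apply sum_congr rfl
  intro i _
  ring

lemma smul_conv (c : F) (f h : Finset (Fin s) → F) : conv (c • f) h = c • conv f h := by
  rw [conv_comm, conv_smul, conv_comm]

/-- The product `∏_{k < n} (1 + u_k v_k)`. -/
def st (u : ℕ → F) (v : ℕ → Fin s → F) : ℕ → Finset (Fin s) → F
  | 0 => fun S => if S = ∅ then 1 else 0
  | k + 1 => st u v k + u k • N (v k) (st u v k)

lemma st_conv [CharP F 2] (x y : ℕ → F) (v : ℕ → Fin s → F) (n : ℕ) :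
    conv (st x v n) (st y v n) = st (x + y) v n := by
  induction n with
  | zero =>
    funext S
    simp only [conv, st]
    rw [sum_eq_single ∅]
    · simp
    · intro T _ hT
      simp [hT]
    · intro h
      exact absurd (mem_powerset.mpr (empty_subset S)) h
  | succ n ih =>
    simp only [st]
    rw [add_conv, conv_add, conv_add, smul_conv, smul_conv, conv_smul, conv_smul, N_conv, conv_N,
      N_conv, conv_N, N_N, ih]
    simp only [smul_zero, add_zero, Pi.add_apply, add_smul]
    abel

/-- The number of nonzero entries of `u` among the first `n`. -/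
noncomputable def nz (u : ℕ → F) (n : ℕ) : ℕ := by
  classical exact ((range n).filter (fun k => u k ≠ 0)).card

lemma nz_succ_of_eq (u : ℕ → F) (n : ℕ) (h : u n = 0) : nz u (n + 1) = nz u n := by
  classical
  unfold nz
  rw [range_add_one, filter_insert, if_neg (by simpa using h)]

lemma nz_succ_of_ne (u : ℕ → F) (n : ℕ) (h : u n ≠ 0) : nz u (n + 1) = nz u n + 1 := by
  classical
  unfold nz
  rw [range_add_one, filter_insert, if_pos h, card_insert_of_notMem (by simp)]

lemma st_eq_zero (u : ℕ → F) (v : ℕ → Fin s → F) (n : ℕ) :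
    ∀ S : Finset (Fin s), nz u n < S.card → st u v n S = 0 := by
  induction n with
  | zero =>
    intro S hS
    simp only [st]
    rw [if_neg]
    rintro rfl
    simp at hS
  | succ n ih =>
    intro S hS
    simp only [st, Pi.add_apply, Pi.smul_apply, smul_eq_mul]
    by_cases h : u n = 0
    · rw [nz_succ_of_eq u n h] at hS
      rw [ih S hS, h]; simp
    · rw [nz_succ_of_ne u n h] at hS
      rw [ih S (by omega)]
      have : N (v n) (st u v n) S = 0 := by
        unfold N
        apply sum_eq_zero
        intro i hi
        rw [ih (S.erase i) (by rw [card_erase_of_mem hi]; omega)]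
        simp
      rw [this]; simp

lemma st_congr (u : ℕ → F) (v v' : ℕ → Fin s → F) (n : ℕ) (h : ∀ k < n, v k = v' k) :
    st u v n = st u v' n := by
  induction n with
  | zero => rfl
  | succ n ih =>
    simp only [st]
    rw [ih (fun k hk => h k (by omega)), h n (by omega)]

/-- A generic choice of the vectors `v_k`. -/
lemma exists_generic [Infinite F] {ι : Type*} [Fintype ι] (u : ι → ℕ → F) (n : ℕ) :
    ∃ v : ℕ → Fin s → F, ∀ i, ∀ S : Finset (Fin s), S.card ≤ nz (u i) n →
      st (u i) v n S ≠ 0 := by
  classical
  induction n with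
  | zero =>
    refine ⟨fun _ _ => 0, ?_⟩
    intro i S hS
    have : S = ∅ := by
      rw [← card_eq_zero]
      have : nz (u i) 0 = 0 := by simp [nz]
      omega
    subst this
    simp [st]
  | succ n ih =>
    obtain ⟨v, hv⟩ := ih
    -- the one-variable polynomials to be avoided
    set p : ι × Finset (Fin s) → Polynomial F := fun q =>
      Polynomial.C (st (u q.1) v n q.2) +
        ∑ i ∈ q.2, Polynomial.C (u q.1 n * st (u q.1) v n (q.2.erase i)) *
          Polynomial.X ^ (i.1 + 1) with hp
    obtain ⟨y, hy⟩ := Infinite.exists_notMem_finset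
      ((univ : Finset (ι × Finset (Fin s))).biUnion (fun q => (p q).roots.toFinset))
    refine ⟨Function.update v n (fun i => y ^ (i.1 + 1)), ?_⟩
    intro i S hS
    have hcongr : st (u i) (Function.update v n (fun i => y ^ (i.1 + 1))) n = st (u i) v n := by
      apply st_congr
      intro k hk
      rw [Function.update_of_ne (by omega)]
    simp only [st, Pi.add_apply, Pi.smul_apply, smul_eq_mul]
    rw [hcongr, Function.update_self]
    by_cases h : u i n = 0
    · rw [nz_succ_of_eq _ n h] at hS
      rw [h]
      simpa using hv i S hS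
    · rw [nz_succ_of_ne _ n h] at hS
      rcases S.eq_empty_or_nonempty with hS0 | ⟨j, hj⟩
      · subst hS0
        simpa [N] using hv i ∅ (by simp)
      · have heval : (p (i, S)).eval y = st (u i) v n S + u i n *
            N (fun i => y ^ (i.1 + 1)) (st (u i) v n) S := by
          simp only [hp, Polynomial.eval_add, Polynomial.eval_C, Polynomial.eval_finsetSum,
            Polynomial.eval_mul, Polynomial.eval_pow, Polynomial.eval_X, N, mul_sum]
          congr 1
          apply sum_congr rfl
          intro k _
          ring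
        have hne : p (i, S) ≠ 0 := by
          intro h0
          have hc : (p (i, S)).coeff (j.1 + 1) = u i n * st (u i) v n (S.erase j) := by
            simp only [hp, Polynomial.coeff_add, Polynomial.coeff_C, Polynomial.finsetSum_coeff,
              Polynomial.coeff_C_mul, Polynomial.coeff_X_pow]
            rw [if_neg (by omega), zero_add, sum_eq_single j]
            · simp
            · intro k _ hk
              rw [if_neg, mul_zero]
              intro h1
              apply hk
              apply Fin.ext
              omega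
            · intro h1; exact absurd hj h1
          rw [h0, Polynomial.coeff_zero] at hc
          rcases mul_eq_zero.mp hc.symm with h1 | h1
          · exact h h1
          · exact hv i (S.erase j) (by rw [card_erase_of_mem hj]; omega) h1
        rw [← heval]
        intro h0
        apply hy
        rw [mem_biUnion]
        refine ⟨(i, S), mem_univ _, ?_⟩
        rw [Multiset.mem_toFinset, Polynomial.mem_roots hne]
        exact h0

/-- The rank argument. -/
lemma card_le [CharP F 2] [Infinite F] {m n : ℕ} (x y : Fin m → ℕ → F)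
    (hd : ∀ i, s ≤ nz (x i + y i) n) (hs : ∀ i j, i < j → nz (x i + y j) n < s) :
    m ≤ 2 ^ s := by
  classical
  obtain ⟨v, hv⟩ := exists_generic (s := s) (fun i => x i + y i) n
  set A : Matrix (Fin m) (Finset (Fin s)) F := fun i T => st (x i) v n T with hA
  set B : Matrix (Finset (Fin s)) (Fin m) F := fun T j => st (y j) v n (univ \ T) with hB
  have hAB : ∀ i j, (A * B) i j = st (x i + y j) v n univ := by
    intro i j
    rw [← st_conv]
    simp only [Matrix.mul_apply, conv, hA, hB, powerset_univ]
  have htri : (A * B).BlockTriangular OrderDual.toDual := by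
    intro i j hij
    rw [hAB]
    apply st_eq_zero
    simp only [card_univ, Fintype.card_fin]
    exact hs i j hij
  have hdet : (A * B).det ≠ 0 := by
    rw [Matrix.det_of_isLowerTriangular _ htri, prod_ne_zero_iff]
    intro i _
    rw [hAB]
    apply hv i
    simp only [card_univ, Fintype.card_fin]
    exact hd i
  have hrank : (A * B).rank = m := by
    rw [Matrix.rank_of_isUnit]
    · simp
    · rw [Matrix.isUnit_iff_isUnit_det]
      exact isUnit_iff_ne_zero.mpr hdet
  calc m = (A * B).rank := hrank.symm
    _ ≤ A.rank := Matrix.rank_mul_le_left A B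
    _ ≤ Fintype.card (Finset (Fin s)) := Matrix.rank_le_card_width A
    _ = 2 ^ s := by simp

end algebra

/-- The upper bound `m ≤ 2^(t+1)`. -/
lemma upper {X : Type*} (t : ℕ) {n m : ℕ} (a b : Fin m → Fin n → X) (h : IsSkewFamily t a b) :
    m ≤ 2 ^ (t + 1) := by
  classical
  set F := AlgebraicClosure (ZMod 2) with hF
  -- the symbols used
  set U : Finset X := (univ : Finset (Fin m × Fin n)).image (fun p => a p.1 p.2) ∪
    (univ : Finset (Fin m × Fin n)).image (fun p => b p.1 p.2) with hU
  obtain ⟨α, hα⟩ : ∃ α : X → F, Set.InjOn α U := by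
    have e : U ≃ Fin U.card := U.equivFin
    refine ⟨fun x => if hx : x ∈ U then Infinite.natEmbedding F (e ⟨x, hx⟩).1 else 0, ?_⟩
    intro x hx y hy hxy
    have hx' : x ∈ U := hx
    have hy' : y ∈ U := hy
    simp only [hx', hy', dif_pos] at hxy
    have h1 := (Infinite.natEmbedding F).injective hxy
    have h2 := e.injective (Fin.ext h1)
    exact congrArg Subtype.val h2
  set x : Fin m → ℕ → F := fun i k => if hk : k < n then α (a i ⟨k, hk⟩) else 0 with hx
  set y : Fin m → ℕ → F := fun i k => if hk : k < n then α (b i ⟨k, hk⟩) else 0 with hy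
  have hnz : ∀ i j, nz (x i + y j) n = dist (a i) (b j) := by
    intro i j
    unfold nz dist
    symm
    apply card_bij (fun (k : Fin n) _ => k.1)
    · intro k hk
      rw [mem_filter] at hk ⊢
      refine ⟨mem_range.mpr k.2, ?_⟩
      simp only [hx, hy, Pi.add_apply, k.2, dif_pos]
      rw [Ne, CharTwo.add_eq_zero]
      intro h1
      apply hk.2
      apply hα _ _ h1
      · simp only [hU, coe_union, coe_image, coe_univ, Set.image_univ]
        left
        exact ⟨(i, k), rfl⟩
      · simp only [hU, coe_union, coe_image, coe_univ, Set.image_univ]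
        right
        exact ⟨(j, k), rfl⟩
    · intro k _ l _ hkl
      exact Fin.ext hkl
    · intro k hk
      rw [mem_filter, mem_range] at hk
      refine ⟨⟨k, hk.1⟩, ?_, rfl⟩
      rw [mem_filter]
      refine ⟨mem_univ _, ?_⟩
      intro h1
      apply hk.2
      simp only [hx, hy, Pi.add_apply, hk.1, dif_pos, h1]
      rw [CharTwo.add_eq_zero]
  apply card_le (s := t + 1) (F := F) (n := n) x y
  · intro i
    rw [hnz]
    exact h.1 i
  · intro i j hij
    rw [hnz]
    have := h.2 i j hij
    omega

/-- The lower bound: `2^(t+1)` is attained. -/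
lemma lower (X : Type*) [Nontrivial X] (t : ℕ) : 2 ^ (t + 1) ∈ lengths t X := by
  classical
  obtain ⟨x0, x1, hx⟩ := exists_pair_ne X
  have hcard : Fintype.card (Fin (t + 1) → Bool) = Fintype.card (Fin (2 ^ (t + 1))) := by simp
  obtain ⟨e⟩ := Fintype.card_eq.mp hcard
  refine ⟨t + 1, le_rfl, fun i k => if e.symm i k then x1 else x0,
    fun i k => if e.symm i k then x0 else x1, ?_, ?_⟩
  · intro i
    unfold dist
    have : (univ.filter (fun k : Fin (t + 1) => (if e.symm i k then x1 else x0) ≠
        (if e.symm i k then x0 else x1))) = univ := by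
      rw [filter_eq_self]
      intro k _
      cases e.symm i k
      · simpa using hx
      · simpa using hx.symm
    rw [this]
    simp
  · intro i j hij
    unfold dist
    have hne : e.symm i ≠ e.symm j := fun h => (ne_of_lt hij) (e.symm.injective h)
    obtain ⟨k, hk⟩ := Function.ne_iff.mp hne
    have hlt : (univ.filter (fun k : Fin (t + 1) => (if e.symm i k then x1 else x0) ≠
        (if e.symm j k then x0 else x1))).card < (univ : Finset (Fin (t + 1))).card := by
      apply card_lt_card
      rw [filter_ssubset]
      refine ⟨k, mem_univ _, ?_⟩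
      rw [not_not]
      cases h1 : e.symm i k <;> cases h2 : e.symm j k
      · exact absurd (h1.trans h2.symm) hk
      · simp
      · simp
      · exact absurd (h1.trans h2.symm) hk
    simp only [card_univ, Fintype.card_fin] at hlt
    exact Nat.le_of_lt_succ hlt

/-- For every `t ≥ 0` and every set `X` with at least two elements, finite or infinite, the
largest length of a skew `t`-family over `X` is exactly `2^(t+1)`. -/
theorem result (t : ℕ) (X : Type*) [Nontrivial X] :
    IsGreatest (lengths t X) (2 ^ (t + 1)) ∧ g t X = 2 ^ (t + 1) := by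
  have h : IsGreatest (lengths t X) (2 ^ (t + 1)) := by
    refine ⟨lower X t, ?_⟩
    rintro m ⟨n, -, a, b, hab⟩
    exact upper t a b hab
  exact ⟨h, h.csSup_eq⟩

end Pool.Agent.Results.MP_41e757_co.SkewHamming
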